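import Mathlib

/-!
MP_d99131_an Q1: a negative answer. There is a good sequence for which no ratio
`|λ_n| / |λ_{n+τ}|` has a limit in `[0,∞]`. Moreover goodness only depends on the sequence
up to a set of density zero, which gives further such sequences.
-/

namespace Pool.Agent.Results.MP_d99131_an.GoodWithoutRatioLimit

open Filter Topology
open scoped ENNReal

/-- The proportion of `B` in `[1,N]`. -/
noncomputable def frac (B : Set ℕ) (N : ℕ) : ℝ := ((B ∩ Set.Icc 1 N).ncard : ℝ) / N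

/-- The upper density of `B ⊆ {1,2,...}`. -/
noncomputable def upperDensity (B : Set ℕ) : ℝ := limsup (frac B) atTop

/-- Sets of density zero. -/
def DensityZero (B : Set ℕ) : Prop := Tendsto (frac B) atTop (𝓝 0)

/-- Property `𝒜` of a sequence of operators `(T_n)_{n ≥ 1}`. -/
def PropertyA {X : Type*} [NormedAddCommGroup X] [NormedSpace ℂ X]
    (T : ℕ → X →L[ℂ] X) : Prop :=
  ∀ U : Set X, IsOpen U → U.Nonempty → ∃ x : X, 0 < upperDensity {n | T n x ∈ U}

/-- Topological multiple recurrence. -/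
def MultiplyRecurrent {X : Type*} [NormedAddCommGroup X] [NormedSpace ℂ X]
    (T : X →L[ℂ] X) : Prop :=
  ∀ U : Set X, IsOpen U → U.Nonempty → ∀ m : ℕ, 1 ≤ m →
    ∃ k : ℕ, 1 ≤ k ∧ ∃ x ∈ U, ∀ j : ℕ, 1 ≤ j → j ≤ m → (T ^ (j * k)) x ∈ U

/-- Good sequences. -/
def Good.{u} (lam : ℕ → ℂ) : Prop :=
  ∀ (X : Type u) [NormedAddCommGroup X] [NormedSpace ℂ X] [CompleteSpace X]
    [TopologicalSpace.SeparableSpace X], ¬ FiniteDimensional ℂ X →
    ∀ T : X →L[ℂ] X, PropertyA (fun n => lam n • T ^ n) → MultiplyRecurrent T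

/-- The ratio `|λ_n| / |λ_{n+τ}|` has a limit in `[0,∞]`. -/
def HasRatioLimit (lam : ℕ → ℂ) (τ : ℕ) : Prop :=
  ∃ L : ℝ≥0∞, Tendsto (fun n => ENNReal.ofReal (‖lam n‖ / ‖lam (n + τ)‖)) atTop (𝓝 L)

section density

lemma frac_nonneg (B : Set ℕ) (N : ℕ) : 0 ≤ frac B N := by
  unfold frac; positivity

lemma ncard_Icc (N : ℕ) : (Set.Icc 1 N).ncard = N := by
  rw [Set.ncard_eq_toFinset_card', Set.toFinset_Icc, Nat.card_Icc]
  omega

lemma frac_le_one (B : Set ℕ) (N : ℕ) : frac B N ≤ 1 := by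
  unfold frac
  rcases Nat.eq_zero_or_pos N with h | h
  · subst h; simp
  · rw [div_le_one (by exact_mod_cast h)]
    have := Set.ncard_le_ncard (s := B ∩ Set.Icc 1 N) (t := Set.Icc 1 N)
      Set.inter_subset_right (Set.finite_Icc 1 N)
    rw [ncard_Icc] at this
    exact_mod_cast this

lemma upperDensity_pos_iff (B : Set ℕ) :
    0 < upperDensity B ↔ ∃ ε : ℝ, 0 < ε ∧ ∃ᶠ N : ℕ in atTop, ε ≤ frac B N := by
  have hbdd : IsBoundedUnder (· ≤ ·) atTop (frac B) :=
    isBoundedUnder_of ⟨1, frac_le_one B⟩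
  have hcobdd : IsCoboundedUnder (· ≤ ·) atTop (frac B) :=
    (isBoundedUnder_of ⟨0, frac_nonneg B⟩ : IsBoundedUnder (· ≥ ·) atTop (frac B)).isCoboundedUnder_le
  constructor
  · intro h
    refine ⟨upperDensity B / 2, by positivity, ?_⟩
    have h2 : upperDensity B / 2 < limsup (frac B) atTop := half_lt_self h
    exact (frequently_lt_of_lt_limsup hcobdd h2).mono fun N hN => hN.le
  · rintro ⟨ε, hε, hf⟩
    exact lt_of_lt_of_le hε (le_limsup_of_frequently_le hf hbdd)

lemma frac_le_add (B B' D : Set ℕ) (h : B ⊆ B' ∪ D) (N : ℕ) :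
    frac B N ≤ frac B' N + frac D N := by
  unfold frac
  rw [← add_div]
  gcongr
  have h1 : B ∩ Set.Icc 1 N ⊆ (B' ∩ Set.Icc 1 N) ∪ (D ∩ Set.Icc 1 N) := by
    rintro n ⟨hn, hI⟩
    rcases h hn with h2 | h2
    · exact Or.inl ⟨h2, hI⟩
    · exact Or.inr ⟨h2, hI⟩
  have h2 := Set.ncard_le_ncard h1
    (((Set.finite_Icc 1 N).inter_of_right _).union ((Set.finite_Icc 1 N).inter_of_right _))
  have h3 := Set.ncard_union_le (B' ∩ Set.Icc 1 N) (D ∩ Set.Icc 1 N)
  exact_mod_cast h2.trans h3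

lemma upperDensity_pos_mono (B B' D : Set ℕ) (h : B ⊆ B' ∪ D) (hD : DensityZero D)
    (hB : 0 < upperDensity B) : 0 < upperDensity B' := by
  rw [upperDensity_pos_iff] at hB ⊢
  obtain ⟨ε, hε, hf⟩ := hB
  refine ⟨ε / 2, by positivity, ?_⟩
  have h1 : ∀ᶠ N in atTop, frac D N < ε / 2 := hD.eventually_lt_const (by positivity)
  refine (hf.and_eventually h1).mono ?_
  rintro N ⟨h2, h3⟩
  have := frac_le_add B B' D h N
  linarith

lemma densityZero_of_finite (B : Set ℕ) (hB : B.Finite) : DensityZero B := by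
  have h1 : ∀ N, frac B N ≤ (B.ncard : ℝ) / N := by
    intro N
    unfold frac
    have : (B ∩ Set.Icc 1 N).ncard ≤ B.ncard := Set.ncard_le_ncard Set.inter_subset_left hB
    gcongr
  have h2 : Tendsto (fun N : ℕ => (B.ncard : ℝ) / N) atTop (𝓝 0) :=
    tendsto_const_div_atTop_nhds_zero_nat _
  exact squeeze_zero (frac_nonneg B) h1 h2

lemma not_pos_of_densityZero (B : Set ℕ) (hB : DensityZero B) : ¬ 0 < upperDensity B := by
  intro h
  have h1 : upperDensity B = 0 := hB.limsup_eq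
  rw [h1] at h
  exact lt_irrefl _ h

end density

/-- Goodness is not affected by changes on a set of density zero: one direction. -/
lemma good_of_densityZero.{u} (lam mu : ℕ → ℂ) (h : DensityZero {n | lam n ≠ mu n})
    (hg : Good.{u} lam) : Good.{u} mu := by
  intro X _ _ _ _ hX T hA
  refine hg X hX T ?_
  intro U hU hne
  obtain ⟨x, hx⟩ := hA U hU hne
  refine ⟨x, upperDensity_pos_mono _ _ {n | lam n ≠ mu n} ?_ h hx⟩
  intro n hn
  by_cases h2 : lam n = mu n
  · left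
    simp only [Set.mem_ofPred_eq] at hn ⊢
    rw [h2]
    exact hn
  · right
    exact h2

lemma good_congr.{u} (lam mu : ℕ → ℂ) (h : DensityZero {n | lam n ≠ mu n}) :
    Good.{u} lam ↔ Good.{u} mu := by
  refine ⟨good_of_densityZero lam mu h, good_of_densityZero mu lam ?_⟩
  have : {n | mu n ≠ lam n} = {n | lam n ≠ mu n} := by
    ext n
    simp only [Set.mem_ofPred_eq]
    exact ne_comm
  rw [this]
  exact h

/-- Sequences tending to zero superexponentially are good. -/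
lemma good_of_superexp.{u} (lam : ℕ → ℂ)
    (h : ∀ R : ℝ, 0 < R → Tendsto (fun n => ‖lam n‖ * R ^ n) atTop (𝓝 0)) :
    Good.{u} lam := by
  intro X _ _ _ _ hX T hA
  exfalso
  have hnt : Nontrivial X := by
    by_contra hcon
    rw [not_nontrivial_iff_subsingleton] at hcon
    exact hX inferInstance
  obtain ⟨v, hv⟩ := exists_ne (0 : X)
  obtain ⟨x, hx⟩ := hA {y : X | 1 < ‖y‖} (isOpen_lt continuous_const continuous_norm)
    ⟨((2 / ‖v‖ : ℝ) : ℂ) • v, by
      simp only [Set.mem_ofPred_eq, norm_smul, Complex.norm_real]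
      have : 0 < ‖v‖ := norm_pos_iff.2 hv
      rw [Real.norm_of_nonneg (by positivity), div_mul_cancel₀ _ this.ne']
      norm_num⟩
  refine not_pos_of_densityZero _ (densityZero_of_finite _ ?_) hx
  have h1 : Tendsto (fun n => ‖lam n‖ * (‖T‖ + 1) ^ n * ‖x‖) atTop (𝓝 0) := by
    simpa using (h (‖T‖ + 1) (by positivity)).mul_const ‖x‖
  have h2 : ∀ᶠ n in atTop, ‖lam n‖ * (‖T‖ + 1) ^ n * ‖x‖ < 1 :=
    h1.eventually_lt_const one_pos
  obtain ⟨n0, hn0⟩ := eventually_atTop.1 h2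
  refine (Set.finite_lt_nat n0).subset ?_
  intro n hn
  simp only [Set.mem_ofPred_eq] at hn ⊢
  by_contra hcon
  have h3 := hn0 n (not_lt.1 hcon)
  have h4 : ‖(lam n • T ^ n) x‖ ≤ ‖lam n‖ * (‖T‖ + 1) ^ n * ‖x‖ := by
    rw [smul_apply, norm_smul, mul_assoc]
    have h5 : ‖(T ^ n) x‖ ≤ (‖T‖ + 1) ^ n * ‖x‖ := by
      refine ((T ^ n).le_opNorm x).trans ?_
      have h6 : ‖T ^ n‖ ≤ (‖T‖ + 1) ^ n :=
        (norm_pow_le T n).trans (pow_le_pow_left₀ (norm_nonneg _) (by linarith) n)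
      exact mul_le_mul_of_nonneg_right h6 (norm_nonneg _)
    exact mul_le_mul_of_nonneg_left h5 (norm_nonneg _)
  linarith

/-! ### The superexponential example -/

/-- exponents, constant on dyadic blocks -/
def ex (n : ℕ) : ℕ := 4 ^ Nat.log 2 n

noncomputable def lam0 (n : ℕ) : ℂ := ((Real.exp (-(ex n : ℝ)) : ℝ) : ℂ)

lemma norm_lam0 (n : ℕ) : ‖lam0 n‖ = Real.exp (-(ex n : ℝ)) := by
  rw [lam0, Complex.norm_real, Real.norm_of_nonneg (Real.exp_pos _).le]

lemma lam0_ne (n : ℕ) : lam0 n ≠ 0 := by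
  rw [← norm_pos_iff, norm_lam0]
  exact Real.exp_pos _

lemma ex_ge (n : ℕ) : n ^ 2 ≤ 4 * ex n := by
  have h1 : n < 2 ^ (Nat.log 2 n + 1) := Nat.lt_pow_succ_log_self (by norm_num) n
  have h2 : n ^ 2 ≤ (2 ^ (Nat.log 2 n + 1)) ^ 2 := Nat.pow_le_pow_left h1.le 2
  have h3 : (2 ^ (Nat.log 2 n + 1)) ^ 2 = 4 * ex n := by
    rw [ex, ← pow_mul, mul_comm, pow_mul, show (2 : ℕ) ^ 2 = 4 by norm_num, pow_succ]
    ring
  omega

lemma lam0_super (R : ℝ) (hR : 0 < R) : Tendsto (fun n => ‖lam0 n‖ * R ^ n) atTop (𝓝 0) := by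
  -- `R ^ n = exp (n log R)`, exponent `-ex n + n log R ≤ -n²/4 + n log R → -∞`
  have h1 : ∀ n : ℕ, ‖lam0 n‖ * R ^ n ≤ Real.exp (n * (Real.log R - n / 4)) := by
    intro n
    rw [norm_lam0]
    have e1 : R ^ n = Real.exp (n * Real.log R) := by
      rw [mul_comm, Real.exp_mul, Real.exp_log hR, Real.rpow_natCast]
    rw [e1, ← Real.exp_add]
    apply Real.exp_le_exp.2
    have := ex_ge n
    have h2 : ((n : ℝ)) ^ 2 ≤ 4 * (ex n : ℝ) := by exact_mod_cast this
    nlinarith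
  have h2 : Tendsto (fun n : ℕ => (n : ℝ) * (Real.log R - n / 4)) atTop atBot := by
    apply Tendsto.atTop_mul_atBot₀ tendsto_natCast_atTop_atTop
    have h3 : Tendsto (fun n : ℕ => (n : ℝ) / 4) atTop atTop :=
      tendsto_natCast_atTop_atTop.atTop_div_const (by norm_num)
    exact tendsto_atBot_add_const_left _ _ (tendsto_neg_atTop_atBot.comp h3)
  exact squeeze_zero (fun n => by positivity) h1 (Real.tendsto_exp_atBot.comp h2)

lemma log_two_pow_add (k τ : ℕ) (h : τ < 2 ^ k) : Nat.log 2 (2 ^ k + τ) = k := by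
  rw [Nat.log_eq_iff (Or.inr ⟨by norm_num, by positivity⟩)]
  constructor
  · omega
  · rw [pow_succ]; omega

lemma lam0_no_limit (τ : ℕ) (hτ : 1 ≤ τ) : ¬ HasRatioLimit lam0 τ := by
  rintro ⟨L, hL⟩
  -- along `n = 2 ^ k` the ratio is `1`
  have hk : Tendsto (fun k : ℕ => 2 ^ k) atTop atTop :=
    tendsto_pow_atTop_atTop_of_one_lt (by norm_num)
  have hbig : ∀ᶠ k : ℕ in atTop, τ < 2 ^ k := hk.eventually_gt_atTop τ
  have h1 := hL.comp hk
  have hL1 : L = 1 := by
    refine tendsto_nhds_unique h1 ?_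
    refine tendsto_const_nhds.congr' ?_
    filter_upwards [hbig] with k hk2
    simp only [Function.comp, norm_lam0, ex]
    have e1 : Nat.log 2 (2 ^ k) = k := Nat.log_pow (by norm_num) k
    rw [log_two_pow_add k τ hk2, e1, div_self (Real.exp_pos _).ne']
    simp
  -- along `n = 2 ^ (k+1) - 1` it is at least `exp 3`
  have hk' : Tendsto (fun k : ℕ => 2 ^ (k + 1) - 1) atTop atTop := by
    refine tendsto_atTop_mono (fun k => ?_) hk
    have : 0 < 2 ^ k := by positivity
    rw [pow_succ]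
    omega
  have h2 := hL.comp hk'
  rw [hL1] at h2
  have h3 : ∀ᶠ k : ℕ in atTop, ENNReal.ofReal (Real.exp 3) ≤
      ((fun n => ENNReal.ofReal (‖lam0 n‖ / ‖lam0 (n + τ)‖)) ∘ fun k : ℕ => 2 ^ (k + 1) - 1) k := by
    filter_upwards [hbig] with k hk2
    simp only [Function.comp, norm_lam0, ex]
    apply ENNReal.ofReal_le_ofReal
    have hpos : 0 < 2 ^ k := by positivity
    have e1 : Nat.log 2 (2 ^ (k + 1) - 1) = k := by
      rw [Nat.log_eq_iff (Or.inr ⟨by norm_num, by rw [pow_succ]; omega⟩)]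
      constructor
      · rw [pow_succ]; omega
      · have : 0 < 2 ^ (k + 1) := by positivity
        omega
    have e2 : Nat.log 2 (2 ^ (k + 1) - 1 + τ) = k + 1 := by
      have : 2 ^ (k + 1) - 1 + τ = 2 ^ (k + 1) + (τ - 1) := by
        have : 0 < 2 ^ (k + 1) := by positivity
        omega
      rw [this]
      apply log_two_pow_add
      rw [pow_succ]
      omega
    rw [e1, e2, ← Real.exp_sub]
    apply Real.exp_le_exp.2
    push_cast
    have : (1 : ℝ) ≤ 4 ^ k := one_le_pow₀ (by norm_num)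
    rw [pow_succ]
    linarith
  have h4 : ENNReal.ofReal (Real.exp 3) ≤ 1 := ge_of_tendsto h2 h3
  have h5 : Real.exp 3 ≤ 1 := by
    rwa [← ENNReal.ofReal_one, ENNReal.ofReal_le_ofReal_iff (by norm_num)] at h4
  have h6 : (1 : ℝ) < Real.exp 3 := Real.one_lt_exp_iff.2 (by norm_num)
  linarith

/-! ### The example at density zero distance from the constant sequence -/

open Classical in
noncomputable def mu0 (n : ℕ) : ℂ := if IsSquare n then 2 else 1

lemma mu0_ne (n : ℕ) : mu0 n ≠ 0 := by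
  unfold mu0; split_ifs <;> norm_num

lemma mu0_densityZero : DensityZero {n | (1 : ℂ) ≠ mu0 n} := by
  have hsub : {n : ℕ | (1 : ℂ) ≠ mu0 n} ⊆ {n : ℕ | IsSquare n} := by
    intro n hn
    by_contra hcon
    apply hn
    simp only [Set.mem_ofPred_eq] at hcon
    simp [mu0, hcon]
  have h1 : ∀ N, frac {n : ℕ | (1 : ℂ) ≠ mu0 n} N ≤ (Nat.sqrt N : ℝ) / N := by
    intro N
    unfold frac
    have h2 : {n : ℕ | (1 : ℂ) ≠ mu0 n} ∩ Set.Icc 1 N ⊆
        (fun k : ℕ => k ^ 2) '' (Set.Icc 1 (Nat.sqrt N)) := by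
      rintro n ⟨hn, hI⟩
      obtain ⟨k, hk⟩ := hsub hn
      refine ⟨k, ⟨?_, ?_⟩, ?_⟩
      · rcases Nat.eq_zero_or_pos k with h0 | h0
        · subst h0
          have := hI.1
          simp at hk
          omega
        · exact h0
      · rw [Nat.le_sqrt]
        rw [← hk]
        exact hI.2
      · simp only
        rw [hk, sq]
    have h3 : ({n : ℕ | (1 : ℂ) ≠ mu0 n} ∩ Set.Icc 1 N).ncard ≤ Nat.sqrt N := by
      refine (Set.ncard_le_ncard h2 ((Set.finite_Icc _ _).image _)).trans ?_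
      refine (Set.ncard_image_le (Set.finite_Icc _ _)).trans ?_
      rw [ncard_Icc]
    gcongr
  have h4 : Tendsto (fun N : ℕ => (Nat.sqrt N : ℝ) / N) atTop (𝓝 0) := by
    have h5 : ∀ N : ℕ, (Nat.sqrt N : ℝ) / N ≤ 1 / √(N : ℝ) := by
      intro N
      rcases Nat.eq_zero_or_pos N with h0 | h0
      · subst h0; simp
      · have hN : (0 : ℝ) < N := by exact_mod_cast h0
        have h6 : (Nat.sqrt N : ℝ) ≤ √(N : ℝ) := Real.nat_sqrt_le_real_sqrt
        rw [div_le_div_iff₀ hN (Real.sqrt_pos.2 hN), one_mul]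
        calc (Nat.sqrt N : ℝ) * √(N : ℝ) ≤ √(N : ℝ) * √(N : ℝ) := by gcongr
          _ = N := Real.mul_self_sqrt hN.le
    have h7 : Tendsto (fun N : ℕ => 1 / √(N : ℝ)) atTop (𝓝 0) := by
      have h8 : Tendsto (fun N : ℕ => √(N : ℝ)) atTop atTop :=
        Real.tendsto_sqrt_atTop.comp tendsto_natCast_atTop_atTop
      exact (tendsto_const_nhds.div_atTop h8)
    exact squeeze_zero (fun N => by positivity) h5 h7
  exact squeeze_zero (frac_nonneg _) h1 h4

lemma not_square (k m : ℕ) (h1 : k ^ 2 < m) (h2 : m < (k + 1) ^ 2) : ¬ IsSquare m := by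
  rintro ⟨r, hr⟩
  have h3 : k < r := by
    by_contra hcon
    have : r * r ≤ k * k := Nat.mul_le_mul (not_lt.1 hcon) (not_lt.1 hcon)
    nlinarith
  have h4 : (k + 1) * (k + 1) ≤ r * r := Nat.mul_le_mul h3 h3
  nlinarith

lemma mu0_no_limit (τ : ℕ) (hτ : 1 ≤ τ) : ¬ HasRatioLimit mu0 τ := by
  rintro ⟨L, hL⟩
  have hk : Tendsto (fun k : ℕ => k ^ 2) atTop atTop := tendsto_pow_atTop (by norm_num)
  have hbig : ∀ᶠ k : ℕ in atTop, τ < k := eventually_gt_atTop τ
  have h1 : L = ENNReal.ofReal 2 := by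
    refine tendsto_nhds_unique (hL.comp hk) ?_
    refine tendsto_const_nhds.congr' ?_
    filter_upwards [hbig] with k hk2
    have e1 : IsSquare (k ^ 2) := ⟨k, sq k⟩
    have e2 : ¬ IsSquare (k ^ 2 + τ) := not_square k _ (by omega) (by nlinarith)
    simp [Function.comp, mu0, e1, e2]
  have hk' : Tendsto (fun k : ℕ => k ^ 2 + 1) atTop atTop :=
    tendsto_atTop_mono (fun k => Nat.le_succ _) hk
  have h2 : L = ENNReal.ofReal 1 := by
    refine tendsto_nhds_unique (hL.comp hk') ?_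
    refine tendsto_const_nhds.congr' ?_
    filter_upwards [hbig] with k hk2
    have e1 : ¬ IsSquare (k ^ 2 + 1) := not_square k _ (by omega) (by nlinarith)
    have e2 : ¬ IsSquare (k ^ 2 + 1 + τ) := not_square k _ (by omega) (by nlinarith)
    simp [Function.comp, mu0, e1, e2]
  rw [h1, ENNReal.ofReal_eq_ofReal_iff (by norm_num) (by norm_num)] at h2
  norm_num at h2

/-- **Negative answer to Q1 of MP_d99131_an.**
(1) There is a good sequence of nonzero complex numbers such that for no `τ ≥ 1` the ratio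
`|λ_n| / |λ_{n+τ}|` has a limit in `[0,∞]`.
(2) Goodness is not affected by changing the sequence on a set of density zero.
(3) There is a sequence of nonzero numbers which differs from the constant sequence `1` only
on a set of density zero and for which again no ratio has a limit; by (2) it is good if and
only if the constant sequence `1` is good. -/
theorem result.{u} :
    (∃ lam : ℕ → ℂ, (∀ n, lam n ≠ 0) ∧ Good.{u} lam ∧
      ∀ τ : ℕ, 1 ≤ τ → ¬ HasRatioLimit lam τ) ∧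
    (∀ lam mu : ℕ → ℂ, DensityZero {n | lam n ≠ mu n} → (Good.{u} lam ↔ Good.{u} mu)) ∧
    (∃ mu : ℕ → ℂ, (∀ n, mu n ≠ 0) ∧ DensityZero {n | (1 : ℂ) ≠ mu n} ∧
      (Good.{u} mu ↔ Good.{u} (fun _ => 1)) ∧ ∀ τ : ℕ, 1 ≤ τ → ¬ HasRatioLimit mu τ) :=
  ⟨⟨lam0, lam0_ne, good_of_superexp _ lam0_super, lam0_no_limit⟩, good_congr,
    ⟨mu0, mu0_ne, mu0_densityZero, (good_congr _ _ mu0_densityZero).symm, mu0_no_limit⟩⟩

end Pool.Agent.Results.MP_d99131_an.GoodWithoutRatioLimit
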