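import Mathlib

set_option autoImplicit false

open Filter Topology
open scoped ENNReal

namespace Pool.Agent.Results.MP_d99131_an.NoRatioLimit

/-- upper density of a set of positive integers -/
noncomputable def upperDensity (B : Set ℕ) : ℝ≥0∞ :=
  limsup (fun N : ℕ => ((B ∩ Set.Icc 1 N).ncard : ℝ≥0∞) / N) atTop

/-- property `𝒜` of the sequence `(T_n)_{n ≥ 1}` of bounded operators -/
def PropertyA {X : Type*} [NormedAddCommGroup X] [NormedSpace ℂ X] (T : ℕ → X →L[ℂ] X) : Prop :=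
  ∀ U : Set X, IsOpen U → U.Nonempty → ∃ x : X, 0 < upperDensity {n | 1 ≤ n ∧ T n x ∈ U}

/-- topological multiple recurrence -/
def MultiplyRecurrent {X : Type*} [NormedAddCommGroup X] [NormedSpace ℂ X] (T : X →L[ℂ] X) :
    Prop :=
  ∀ U : Set X, IsOpen U → U.Nonempty → ∀ m : ℕ, 1 ≤ m → ∃ k : ℕ, 1 ≤ k ∧
    ∃ x : X, ∀ i ≤ m, (T ^ (i * k)) x ∈ U

/-- good sequences (only the values at `n ≥ 1` matter) -/
def Good.{u} (l : ℕ → ℂ) : Prop :=
  (∀ n, 1 ≤ n → l n ≠ 0) ∧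
  ∀ (X : Type u) [NormedAddCommGroup X] [NormedSpace ℂ X] [CompleteSpace X]
    [TopologicalSpace.SeparableSpace X], ¬ FiniteDimensional ℂ X →
    ∀ T : X →L[ℂ] X, PropertyA (fun n => l n • T ^ n) → MultiplyRecurrent T

lemma upperDensity_mono_union (B B' S : Set ℕ) (hS : upperDensity S = 0) (h : B ⊆ B' ∪ S)
    (hB : 0 < upperDensity B) : 0 < upperDensity B' := by
  have hS0 : Tendsto (fun N : ℕ => ((S ∩ Set.Icc 1 N).ncard : ℝ≥0∞) / N) atTop (𝓝 0) :=
    tendsto_of_le_liminf_of_limsup_le zero_le (le_of_eq hS)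
  have h1 : upperDensity B ≤ upperDensity B' := by
    unfold upperDensity
    refine le_trans ?_ (le_of_eq (ENNReal.limsup_add_of_right_tendsto_zero hS0
      (fun N : ℕ => ((B' ∩ Set.Icc 1 N).ncard : ℝ≥0∞) / N)))
    refine limsup_le_limsup (Eventually.of_forall fun N => ?_)
    have hfin : ((B' ∪ S) ∩ Set.Icc 1 N).Finite := (Set.finite_Icc 1 N).subset Set.inter_subset_right
    have h2 : (B ∩ Set.Icc 1 N).ncard ≤ (B' ∩ Set.Icc 1 N).ncard + (S ∩ Set.Icc 1 N).ncard := by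
      refine le_trans (Set.ncard_le_ncard (Set.inter_subset_inter_left _ h) hfin) ?_
      rw [Set.union_inter_distrib_right]
      exact Set.ncard_union_le _ _
    have h3 : ((B ∩ Set.Icc 1 N).ncard : ℝ≥0∞) ≤
        ((B' ∩ Set.Icc 1 N).ncard : ℝ≥0∞) + ((S ∩ Set.Icc 1 N).ncard : ℝ≥0∞) := by
      exact_mod_cast h2
    calc ((B ∩ Set.Icc 1 N).ncard : ℝ≥0∞) / N
        ≤ (((B' ∩ Set.Icc 1 N).ncard : ℝ≥0∞) + ((S ∩ Set.Icc 1 N).ncard : ℝ≥0∞)) / N :=
          ENNReal.div_le_div_right h3 _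
      _ = _ := by rw [ENNReal.add_div]; rfl
  exact lt_of_lt_of_le hB h1

/-- sets with at most `log N + c` elements up to `N` have density zero -/
lemma density_zero_of_le (S : Set ℕ) (f : ℕ → ℝ) (hf : Tendsto (fun N : ℕ => f N / N) atTop (𝓝 0))
    (h : ∀ N, ((S ∩ Set.Icc 1 N).ncard : ℝ) ≤ f N) : upperDensity S = 0 := by
  unfold upperDensity
  have h0 : Tendsto (fun N : ℕ => ((S ∩ Set.Icc 1 N).ncard : ℝ≥0∞) / N) atTop (𝓝 0) := by
    have h1 : Tendsto (fun N : ℕ => ENNReal.ofReal (f N / N)) atTop (𝓝 0) := by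
      have := ENNReal.tendsto_ofReal hf
      simpa using this
    refine tendsto_of_tendsto_of_tendsto_of_le_of_le' tendsto_const_nhds h1
      (Eventually.of_forall fun _ => zero_le) ?_
    filter_upwards [eventually_gt_atTop 0] with N hN
    have hN' : (0 : ℝ) < N := by exact_mod_cast hN
    rw [ENNReal.ofReal_div_of_pos hN', ENNReal.ofReal_natCast]
    refine ENNReal.div_le_div_right ?_ _
    have := ENNReal.ofReal_le_ofReal (h N)
    rwa [ENNReal.ofReal_natCast] at this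
  exact h0.limsup_eq

lemma density_powers : upperDensity {n | ∃ k, n = 2 ^ k} = 0 := by
  refine density_zero_of_le _ (fun N => Real.log N / Real.log 2 + 1) ?_ ?_
  · have h1 : Tendsto (fun N : ℕ => Real.log N / N) atTop (𝓝 0) := by
      have := (Real.isLittleO_log_id_atTop.tendsto_div_nhds_zero).comp
        (tendsto_natCast_atTop_atTop (R := ℝ))
      exact this
    have h2 : Tendsto (fun N : ℕ => (1 : ℝ) / N) atTop (𝓝 0) := tendsto_one_div_atTop_nhds_zero_nat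
    have h3 := (h1.div_const (Real.log 2)).add h2
    rw [zero_div, zero_add] at h3
    refine h3.congr fun N => ?_
    ring
  · intro N
    have hsub : ({n | ∃ k, n = 2 ^ k} ∩ Set.Icc 1 N) ⊆
        ((Finset.range (Nat.log 2 N + 1)).image (fun k => 2 ^ k) : Finset ℕ) := by
      rintro n ⟨⟨k, rfl⟩, h1, h2⟩
      simp only [Finset.coe_image, Set.mem_image, Finset.coe_range, Set.mem_Iio]
      refine ⟨k, ?_, rfl⟩
      have : k ≤ Nat.log 2 N := Nat.le_log_of_pow_le (by norm_num) h2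
      omega
    have h1 : ({n | ∃ k, n = 2 ^ k} ∩ Set.Icc 1 N).ncard ≤ Nat.log 2 N + 1 := by
      refine le_trans (Set.ncard_le_ncard hsub (Finset.finite_toSet _)) ?_
      rw [Set.ncard_coe_finset]
      exact Finset.card_image_le.trans (by simp)
    have h2 : ((({n | ∃ k, n = 2 ^ k} ∩ Set.Icc 1 N).ncard : ℕ) : ℝ) ≤ (Nat.log 2 N : ℝ) + 1 := by
      exact_mod_cast h1
    refine h2.trans ?_
    have h3 : (Nat.log 2 N : ℝ) ≤ Real.log N / Real.log 2 := by
      rcases Nat.eq_zero_or_pos N with rfl | hN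
      · simp
      · rw [le_div_iff₀ (Real.log_pos (by norm_num))]
        have h4 : (2 : ℝ) ^ (Nat.log 2 N) ≤ N := by
          exact_mod_cast Nat.pow_log_le_self 2 hN.ne'
        have h5 := Real.log_le_log (by positivity) h4
        rwa [Real.log_pow] at h5
    linarith

/-- changing a good sequence on a set of density zero keeps it good -/
lemma good_of_eq_off.{u} {l m : ℕ → ℂ} (S : Set ℕ) (hS : upperDensity S = 0)
    (hne : ∀ n, 1 ≤ n → l n ≠ 0) (h : ∀ n, n ∉ S → l n = m n) (hm : Good.{u} m) : Good.{u} l := by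
  refine ⟨hne, ?_⟩
  intro X _ _ _ _ hX T hT
  refine hm.2 X hX T ?_
  intro U hU hUn
  obtain ⟨x, hx⟩ := hT U hU hUn
  refine ⟨x, upperDensity_mono_union _ _ S hS ?_ hx⟩
  rintro n ⟨hn1, hn2⟩
  by_cases hnS : n ∈ S
  · exact Or.inr hnS
  · left
    refine ⟨hn1, ?_⟩
    simpa [h n hnS] using hn2

/-- the super-exponentially decaying sequence is good (no operator has property `𝒜`) -/
lemma good_exp.{u} : Good.{u} (fun n => ((Real.exp (-(n : ℝ) ^ 2) : ℝ) : ℂ)) := by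
  refine ⟨fun n _ => Complex.ofReal_ne_zero.2 (Real.exp_pos _).ne', ?_⟩
  intro X _ _ _ _ hX T hT
  exfalso
  have hnt : Nontrivial X := by
    by_contra hh
    rw [not_nontrivial_iff_subsingleton] at hh
    exact hX inferInstance
  obtain ⟨x0, hx0⟩ := exists_norm_eq X (show (0 : ℝ) ≤ 2 by norm_num)
  obtain ⟨x, hx⟩ := hT {z : X | 1 < ‖z‖} (isOpen_lt continuous_const continuous_norm)
    ⟨x0, by simp [hx0]⟩
  -- the orbit tends to zero
  have htend : Tendsto (fun n : ℕ => Real.exp (-(n : ℝ) ^ 2) * (‖T‖ ^ n * ‖x‖)) atTop (𝓝 0) := by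
    have h1 : ∀ n : ℕ, Real.exp (-(n : ℝ) ^ 2) * (‖T‖ ^ n * ‖x‖) ≤
        (Real.exp ((‖T‖ - n) * n)) * ‖x‖ := by
      intro n
      have h2 : ‖T‖ ^ n ≤ Real.exp (‖T‖ * n) := by
        have h3 : ‖T‖ ≤ Real.exp ‖T‖ := by linarith [Real.add_one_le_exp ‖T‖]
        calc ‖T‖ ^ n ≤ (Real.exp ‖T‖) ^ n := pow_le_pow_left₀ (norm_nonneg _) h3 n
          _ = Real.exp (‖T‖ * n) := by rw [← Real.exp_nat_mul]; ring_nf
      have h3 : Real.exp (-(n : ℝ) ^ 2) * Real.exp (‖T‖ * n) = Real.exp ((‖T‖ - n) * n) := by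
        rw [← Real.exp_add]; ring_nf
      calc Real.exp (-(n : ℝ) ^ 2) * (‖T‖ ^ n * ‖x‖)
          ≤ Real.exp (-(n : ℝ) ^ 2) * (Real.exp (‖T‖ * n) * ‖x‖) := by gcongr
        _ = (Real.exp ((‖T‖ - n) * n)) * ‖x‖ := by rw [← mul_assoc, h3]
    refine squeeze_zero (fun n => by positivity) h1 ?_
    have h4 : Tendsto (fun n : ℕ => (‖T‖ - n) * n) atTop atBot := by
      have h5 : Tendsto (fun n : ℕ => (n : ℝ) - ‖T‖) atTop atTop :=
        tendsto_atTop_add_const_right _ _ (tendsto_natCast_atTop_atTop (R := ℝ))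
      have h6 := h5.atTop_mul_atTop₀ (tendsto_natCast_atTop_atTop (R := ℝ))
      have h7 := tendsto_neg_atTop_atBot.comp h6
      refine h7.congr fun n => ?_
      simp only [Function.comp]
      ring
    have h8 := (Real.tendsto_exp_atBot.comp h4).mul_const ‖x‖
    simpa using h8
  have hev : ∀ᶠ n : ℕ in atTop, Real.exp (-(n : ℝ) ^ 2) * (‖T‖ ^ n * ‖x‖) < 1 :=
    htend.eventually (gt_mem_nhds (by norm_num))
  obtain ⟨N0, hN0⟩ := eventually_atTop.1 hev
  have hfin : {n : ℕ | 1 ≤ n ∧ ((fun n : ℕ => ((Real.exp (-(n : ℝ) ^ 2) : ℝ) : ℂ) • T ^ n) n) x ∈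
      {z : X | 1 < ‖z‖}} ⊆ Set.Iio N0 := by
    rintro n ⟨_, hn⟩
    by_contra hc
    rw [Set.mem_Iio, not_lt] at hc
    have h1 := hN0 n hc
    have h2 : 1 < ‖((Real.exp (-(n : ℝ) ^ 2) : ℝ) : ℂ) • (T ^ n) x‖ := hn
    rw [norm_smul] at h2
    have h3 : ‖((Real.exp (-(n : ℝ) ^ 2) : ℝ) : ℂ)‖ = Real.exp (-(n : ℝ) ^ 2) := by
      rw [Complex.norm_real, Real.norm_eq_abs, abs_of_pos (Real.exp_pos _)]
    rw [h3] at h2
    have h4 : ‖(T ^ n) x‖ ≤ ‖T‖ ^ n * ‖x‖ := by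
      refine ((T ^ n).le_opNorm x).trans ?_
      gcongr
      exact norm_pow_le _ _
    have h5 : Real.exp (-(n : ℝ) ^ 2) * ‖(T ^ n) x‖ ≤ Real.exp (-(n : ℝ) ^ 2) * (‖T‖ ^ n * ‖x‖) := by
      gcongr
    linarith
  have hzero := density_zero_of_le {n : ℕ | 1 ≤ n ∧
      ((fun n : ℕ => ((Real.exp (-(n : ℝ) ^ 2) : ℝ) : ℂ) • T ^ n) n) x ∈ {z : X | 1 < ‖z‖}}
      (fun _ => (N0 : ℝ)) (by
        have := (tendsto_const_div_atTop_nhds_zero_nat (N0 : ℝ))
        exact this) (by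
        intro N
        have h1 := Set.ncard_le_ncard (Set.inter_subset_left.trans hfin)
          (Set.finite_Iio N0) (s := {n : ℕ | 1 ≤ n ∧
            ((fun n : ℕ => ((Real.exp (-(n : ℝ) ^ 2) : ℝ) : ℂ) • T ^ n) n) x ∈ {z : X | 1 < ‖z‖}} ∩
            Set.Icc 1 N)
        have h2 : (Set.Iio N0).ncard = N0 := by
          rw [← Finset.coe_Iio, Set.ncard_coe_finset, Nat.card_Iio]
        rw [h2] at h1
        exact_mod_cast h1)
  exact absurd hx (by rw [hzero]; exact lt_irrefl 0)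

/-- the ratio `|l n| / |l (n + τ)|` has a limit in `[0,∞]` as `n → ∞` -/
def HasRatioLimit (l : ℕ → ℂ) (τ : ℕ) : Prop :=
  ∃ a : ℝ≥0∞, Tendsto (fun n => ENNReal.ofReal (‖l n‖ / ‖l (n + τ)‖)) atTop (𝓝 a)

/-- Every good sequence can be changed on a set of density zero into a good sequence without any
ratio limit. -/
lemma change.{u} (m : ℕ → ℂ) (hm : Good.{u} m) : ∃ (l : ℕ → ℂ) (S : Set ℕ), upperDensity S = 0 ∧
    (∀ n, n ∉ S → l n = m n) ∧ Good.{u} l ∧ ∀ τ : ℕ, 1 ≤ τ → ¬ HasRatioLimit l τ := by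
  classical
  -- bounds for the neighbours
  have hmax : ∀ k : ℕ, ∃ c : ℝ, 0 < c ∧ ∀ t : ℕ, 1 ≤ t → t ≤ k → ‖m (2 ^ k + t)‖ ≤ c := by
    intro k
    refine ⟨1 + ∑ t ∈ Finset.range (k + 1), ‖m (2 ^ k + t)‖, ?_, ?_⟩
    · have : 0 ≤ ∑ t ∈ Finset.range (k + 1), ‖m (2 ^ k + t)‖ :=
        Finset.sum_nonneg fun _ _ => norm_nonneg _
      linarith
    · intro t _ ht
      have := Finset.single_le_sum (f := fun t => ‖m (2 ^ k + t)‖)
        (s := Finset.range (k + 1)) (fun _ _ => norm_nonneg _) (Finset.mem_range.2 (by omega : t < k + 1))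
      linarith
  have hmin : ∀ k : ℕ, ∃ c : ℝ, 0 < c ∧ ∀ t : ℕ, 1 ≤ t → t ≤ k → c ≤ ‖m (2 ^ k + t)‖ := by
    intro k
    have hne : ((Finset.range (k + 1)).image fun t => ‖m (2 ^ k + t)‖).Nonempty :=
      (Finset.nonempty_range_iff.2 (by omega)).image _
    refine ⟨((Finset.range (k + 1)).image fun t => ‖m (2 ^ k + t)‖).min' hne, ?_, ?_⟩
    · rw [Finset.lt_min'_iff]
      intro y hy
      obtain ⟨t, _, rfl⟩ := Finset.mem_image.1 hy
      exact norm_pos_iff.2 (hm.1 _ (by have := Nat.one_le_two_pow (n := k); omega))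
    · intro t _ ht
      exact Finset.min'_le _ _ (Finset.mem_image_of_mem _ (Finset.mem_range.2 (by omega)))
  choose cM hcM1 hcM2 using hmax
  choose cm hcm1 hcm2 using hmin
  let g : ℕ → ℝ := fun k => if Even k then ((k : ℝ) + 1) * cM k else cm k / ((k : ℝ) + 1)
  have hg : ∀ k, 0 < g k := by
    intro k
    simp only [g]
    split
    · have := hcM1 k; positivity
    · have := hcm1 k; positivity
  let S : Set ℕ := {n | ∃ k, n = 2 ^ k}
  let l : ℕ → ℂ := fun n => if n ∈ S then ((g (Nat.log 2 n) : ℝ) : ℂ) else m n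
  have hlS : ∀ k, l (2 ^ k) = ((g k : ℝ) : ℂ) := by
    intro k
    have : (2 ^ k : ℕ) ∈ S := ⟨k, rfl⟩
    simp only [l, this, if_true]
    rw [Nat.log_pow (by norm_num)]
  have hlN : ∀ n, n ∉ S → l n = m n := by
    intro n hn
    simp only [l, hn, if_false]
  have hne : ∀ n, 1 ≤ n → l n ≠ 0 := by
    intro n hn
    by_cases h : n ∈ S
    · obtain ⟨k, rfl⟩ := h
      rw [hlS k]
      exact_mod_cast (hg k).ne'
    · rw [hlN n h]; exact hm.1 n hn
  refine ⟨l, S, density_powers, hlN, good_of_eq_off S density_powers hne hlN hm, ?_⟩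
  intro τ hτ
  rintro ⟨a, ha⟩
  -- neighbours of powers of two are not powers of two
  have hnot : ∀ k, τ ≤ k → 2 ^ k + τ ∉ S := by
    rintro k hk ⟨j, hj⟩
    have h1 : k < 2 ^ k := Nat.lt_two_pow_self
    have h2 : 2 ^ k < 2 ^ j := by omega
    have h3 : k < j := (Nat.pow_lt_pow_iff_right (by norm_num)).1 h2
    have h4 : 2 ^ (k + 1) ≤ 2 ^ j := Nat.pow_le_pow_right (by norm_num) h3
    have h5 : 2 ^ (k + 1) = 2 ^ k + 2 ^ k := by ring
    omega
  have hval : ∀ k, τ ≤ k → ‖l (2 ^ k)‖ / ‖l (2 ^ k + τ)‖ = g k / ‖m (2 ^ k + τ)‖ := by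
    intro k hk
    rw [hlS k, hlN _ (hnot k hk), Complex.norm_real, Real.norm_eq_abs, abs_of_pos (hg k)]
  have hpos : ∀ k, 0 < ‖m (2 ^ k + τ)‖ := fun k =>
    norm_pos_iff.2 (hm.1 _ (by have := Nat.one_le_two_pow (n := k); omega))
  -- along even exponents
  have he : Tendsto (fun j : ℕ => (2 : ℕ) ^ (2 * j)) atTop atTop := by
    refine tendsto_atTop_mono (fun j => ?_) tendsto_id
    have : 2 * j < 2 ^ (2 * j) := Nat.lt_two_pow_self
    simp only [id]
    omega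
  have ho : Tendsto (fun j : ℕ => (2 : ℕ) ^ (2 * j + 1)) atTop atTop := by
    refine tendsto_atTop_mono (fun j => ?_) tendsto_id
    have : 2 * j + 1 < 2 ^ (2 * j + 1) := Nat.lt_two_pow_self
    simp only [id]
    omega
  have h1 := ha.comp he
  have h2 := ha.comp ho
  have h3 : Tendsto ((fun n => ENNReal.ofReal (‖l n‖ / ‖l (n + τ)‖)) ∘ fun j : ℕ => (2 : ℕ) ^ (2 * j))
      atTop (𝓝 ⊤) := by
    rw [ENNReal.tendsto_nhds_top_iff_nat]
    intro n
    filter_upwards [eventually_ge_atTop (max τ n)] with j hj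
    have hjτ : τ ≤ 2 * j := by have := le_max_left τ n; omega
    have hjn : n ≤ j := (le_max_right τ n).trans hj
    simp only [Function.comp]
    rw [hval _ hjτ]
    have hge : (n : ℝ) < g (2 * j) / ‖m (2 ^ (2 * j) + τ)‖ := by
      rw [lt_div_iff₀ (hpos _)]
      have h4 : g (2 * j) = (((2 * j : ℕ) : ℝ) + 1) * cM (2 * j) := by
        simp only [g]; rw [if_pos (even_two_mul j)]
      rw [h4]
      have h5 := hcM2 (2 * j) τ hτ hjτ
      have h6 : (n : ℝ) < ((2 * j : ℕ) : ℝ) + 1 := by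
        have : n < 2 * j + 1 := by omega
        exact_mod_cast this
      have h7 := hcM1 (2 * j)
      calc (n : ℝ) * ‖m (2 ^ (2 * j) + τ)‖ ≤ n * cM (2 * j) := by gcongr
        _ < _ := by exact mul_lt_mul_of_pos_right h6 h7
    have h8 : ((n : ℕ) : ℝ≥0∞) = ENNReal.ofReal (n : ℝ) := (ENNReal.ofReal_natCast n).symm
    rw [h8]
    exact (ENNReal.ofReal_lt_ofReal_iff_of_nonneg (Nat.cast_nonneg n)).2 hge
  have h4 : Tendsto ((fun n => ENNReal.ofReal (‖l n‖ / ‖l (n + τ)‖)) ∘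
      fun j : ℕ => (2 : ℕ) ^ (2 * j + 1)) atTop (𝓝 0) := by
    have h5 : Tendsto (fun j : ℕ => ENNReal.ofReal (1 / ((j : ℝ) + 1))) atTop (𝓝 0) := by
      have := ENNReal.tendsto_ofReal (tendsto_one_div_add_atTop_nhds_zero_nat (𝕜 := ℝ))
      simpa using this
    refine tendsto_of_tendsto_of_tendsto_of_le_of_le' tendsto_const_nhds h5
      (Eventually.of_forall fun _ => zero_le) ?_
    filter_upwards [eventually_ge_atTop τ] with j hj
    have hjτ : τ ≤ 2 * j + 1 := by omega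
    simp only [Function.comp]
    rw [hval _ hjτ]
    refine ENNReal.ofReal_le_ofReal ?_
    rw [div_le_iff₀ (hpos _)]
    have h6 : g (2 * j + 1) = cm (2 * j + 1) / (((2 * j + 1 : ℕ) : ℝ) + 1) := by
      simp only [g]
      rw [if_neg (by simp)]
    rw [h6]
    have h7 := hcm2 (2 * j + 1) τ hτ hjτ
    have h8 := hcm1 (2 * j + 1)
    have h9 : (j : ℝ) + 1 ≤ ((2 * j + 1 : ℕ) : ℝ) + 1 := by
      have : j + 1 ≤ 2 * j + 1 + 1 := by omega
      exact_mod_cast this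
    calc cm (2 * j + 1) / (((2 * j + 1 : ℕ) : ℝ) + 1) ≤ cm (2 * j + 1) / ((j : ℝ) + 1) := by gcongr
      _ = 1 / ((j : ℝ) + 1) * cm (2 * j + 1) := by ring
      _ ≤ _ := by gcongr
  have e1 := tendsto_nhds_unique h1 h3
  have e2 := tendsto_nhds_unique h2 h4
  rw [e1] at e2
  exact ENNReal.top_ne_zero e2

/-- **Negative answer to Q1.**  There are good sequences, and every good sequence `m` can be changed
on a set of upper density zero into a good sequence `l` such that for every `τ ≥ 1` the ratio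
`|l n| / |l (n + τ)|` has no limit in `[0,∞]`. -/
theorem result.{u} : (∃ m : ℕ → ℂ, Good.{u} m) ∧
    ∀ m : ℕ → ℂ, Good.{u} m → ∃ (l : ℕ → ℂ) (S : Set ℕ), upperDensity S = 0 ∧
      (∀ n, n ∉ S → l n = m n) ∧ Good.{u} l ∧ ∀ τ : ℕ, 1 ≤ τ → ¬ HasRatioLimit l τ :=
  ⟨⟨_, good_exp⟩, fun m hm => change m hm⟩

end Pool.Agent.Results.MP_d99131_an.NoRatioLimit
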